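import Pool.Agent.Hhelper34.FB.Five

namespace Pool.Agent.Results.MP_fbee77_co.FiveFails

open Pool.Agent.FB

/-- For the odd number `n = 5` there are no `n - 2 = 3` pairwise edge-disjoint rainbow cycles in
the flip graph `G_{5,2}`; in particular its edge set has no partition into rainbow Hamilton
cycles. -/
theorem result : ¬ HasDisjointRainbow 5 (5 - 2) := five_fails

end Pool.Agent.Results.MP_fbee77_co.FiveFails
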