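import Pool.Agent.Hhelper34.FR.Main

namespace Pool.Agent.Results.MP_fbee77_co.ManyDisjoint

open Pool.Agent.FB

/-- For every odd `n ≥ 13` the flip graph `G_{n,2}` has at least `φ(n) / 2` pairwise edge-disjoint
rainbow (Hamilton) cycles; for a prime `n` this is `(n - 1) / 2`. -/
theorem result (n : ℕ) (hodd : Odd n) (hn : 13 ≤ n) :
    HasDisjointRainbow n (Nat.totient n / 2) := by
  obtain ⟨l, rfl⟩ := hodd
  exact Pool.Agent.FR.many_disjoint (by omega)

end Pool.Agent.Results.MP_fbee77_co.ManyDisjoint
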