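import Pool.Agent.Hhelper34.FR.GeoMain

namespace Pool.Agent.Results.MP_fbee77_co.PrimeFamily

open Pool.Agent.FB Pool.Agent.FR

/-- Let `n = 2 l + 1 ≥ 7` be a prime number. The flip graph `G_{n,2}` has `2 φ(l)` pairwise
edge-disjoint rainbow (Hamilton) cycles. If `l` is a prime number too, so that the number of
cycles is `n - 3`, they can be chosen so that the edges on none of them are exactly the edges
which join `{x, c}` and `{c, y}` with `x + y ≡ 2 c` modulo `n`. -/
theorem result (l : ℕ) (hl : 3 ≤ l) (hp : (2 * l + 1).Prime) :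
    ∃ (v : Fin (2 * Nat.totient l) → Pr (2 * l + 1))
      (w : ∀ i, (flipGraph (2 * l + 1)).Walk (v i) (v i)),
      (∀ i, IsRainbowCycle (w i)) ∧
      (∀ i j, i ≠ j → ∀ e, e ∈ (w i).edges → e ∉ (w j).edges) ∧
      (l.Prime → ∀ e ∈ (flipGraph (2 * l + 1)).edgeSet,
        ((∃ i, e ∈ (w i).edges) ↔ ¬ IsMid (2 * l + 1) e)) :=
  geometric hl hp

end Pool.Agent.Results.MP_fbee77_co.PrimeFamily
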