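import Pool.Agent.Hhelper34.FB.Seven

namespace Pool.Agent.Results.MP_fbee77_co.SevenWorks

open Pool.Agent.FB

/-- The edge set of the flip graph `G_{7,2}` can be partitioned into `5` rainbow Hamilton
cycles. -/
theorem result : HasRainbowFactorization 7 := seven_works

end Pool.Agent.Results.MP_fbee77_co.SevenWorks
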